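import Pool.Agent.Run7.h479.XX.Centre

/-!
# The sign `ε(π)` by the traces of Frobenius

Let `π` be as on the page and `a_{v,1}, …, a_{v,n}` the Satake parameters of `π` at the prime ideals `v` of `F`
in the normalisation of the page, so that `L(s, π) = ∏_v ∏_i (1 - a_{v,i} N(v)^(-s))⁻¹` for `Re s > 1/2`,
`|a_{v,i}| ≤ N(v)^(-1/2)` (with equality at the unramified `v`; zeros are allowed at the ramified `v`);
`∑_i a_{v,i}^k` is the trace of the `k`-th power of the geometric Frobenius automorphism in `ρ_{π,ι}` (`v ∤ p` unramified).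
For `γ > π / 2` and `T > 0` put

  `S(T) = ∑_v ∑_(k ≥ 1) (1 / k) (∑_i a_{v,i}^k) e^(i γ u) / Γ(1 + u)`, `u = k log N(v) / T`.

The series converges absolutely, although the centre `s = 0` is outside of the region of convergence of the
Euler product. Let `m` be the order of the entire function `L(s, π)` at `s = 0`. Without any hypothesis on
zeros:

(1) `S(T) - S(e T) = m + O(1 / T)`: the order `m` is the integer nearest to `Re (S(T) - S(e T))` for all large `T`;

(2) the functional equation `L*(s, π) = ε(s, π) L*(-s, π)`, `L* = g L` with the archimedean factor `g`, which has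
neither a zero nor a pole at `0`, gives `ε(π) = (-1)^m` and so

  `ε(π) = exp (π i (S(T) - S(e T))) + O(1 / T)`;

(3) `ε(π) = -1` if and only if `S(T) - S(e T)` tends to an odd integer, for `T → ∞` along any filter (for example
along one sequence). So for every statement `H` (in Q1: `H^1_f(F, ρ_{π,ι}) ≠ 0`): `ε(π) = -1` implies `H` if and
only if `H` holds or this limit is even.

The law for Euler products with complex coefficients at a real point is due to helper453 (library
`Pool.Agent.Run7.h453.CX`), in the form of helper479 (`Pool.Agent.Run7.h479.XX.Centre`).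
-/

set_option autoImplicit false

open Filter Topology Set NumberField IsDedekindDomain Run7.h479.XX Asymptotics

namespace Pool.Agent.Results.MP_b4b3cb_nt.SignByTraces

variable {F : Type} [Field F] [NumberField F] {n : ℕ}

/-- `L` is the L-function of `π`: entire, and the Euler product for `Re s > 1/2` with the parameters
`a_{v,i}`, `|a_{v,i}| ≤ N(v)^(-1/2)` (`nm v = N(v)`). -/
structure IsLFunction (a : HeightOneSpectrum (𝓞 F) → Fin n → ℂ) (L : ℂ → ℂ) : Prop where
  bound : ∀ v i, ‖a v i‖ ≤ nm v ^ (-(1 / 2) : ℝ)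
  euler : ∀ s : ℂ, 1 / 2 < s.re → L s = ∏' v : HeightOneSpectrum (𝓞 F),
    ∏ i, (1 - a v i * (nm v : ℂ) ^ (-s))⁻¹
  entire : Differentiable ℂ L

/-- `L*(s) = ε(s) L*(-s)` near `s = 0`, where `L* = g L`, the archimedean factor `g` is analytic and not `0` at
`0`, `ε(s)` is continuous at `0` and `ε(0) = ε₀`. -/
def IsSign (L : ℂ → ℂ) (ε₀ : ℂ) : Prop :=
  ∃ g ε : ℂ → ℂ, AnalyticAt ℂ g 0 ∧ g 0 ≠ 0 ∧ ContinuousAt ε 0 ∧ ε 0 = ε₀ ∧
    ∀ᶠ s in 𝓝 (0 : ℂ), g s * L s = ε s * (g (-s) * L (-s))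

/-- The term of `S(T)` for `v = x.1` and `k = x.2`; `weight γ T t = e^(i γ t / T) / Γ(1 + t / T)`. -/
noncomputable def term (a : HeightOneSpectrum (𝓞 F) → Fin n → ℂ) (γ T : ℝ)
    (x : HeightOneSpectrum (𝓞 F) × ℕ+) : ℂ :=
  (∑ i, a x.1 i ^ (x.2 : ℕ)) / ((x.2 : ℕ) : ℂ) * weight γ T ((x.2 : ℕ) * Real.log (nm x.1))

/-- `S(T)` -/
noncomputable def sum (a : HeightOneSpectrum (𝓞 F) → Fin n → ℂ) (γ T : ℝ) : ℂ := ∑' x, term a γ T x

/-- `S(T) - S(e T)` -/
noncomputable def diff (a : HeightOneSpectrum (𝓞 F) → Fin n → ℂ) (γ T : ℝ) : ℂ :=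
  sum a γ T - sum a γ (Real.exp 1 * T)

section proof

variable {a : HeightOneSpectrum (𝓞 F) → Fin n → ℂ} {L : ℂ → ℂ}

theorem term_eq (γ T : ℝ) (x : HeightOneSpectrum (𝓞 F) × ℕ+) :
    term a γ T x = Centre.term a 0 γ T x := by
  unfold term Centre.term
  rw [mul_zero, Real.rpow_zero, Complex.ofReal_one, mul_one]

theorem sum_eq (γ T : ℝ) : sum a γ T = Centre.sum a 0 γ T := tsum_congr fun x => term_eq γ T x

theorem IsLFunction.isL (h : IsLFunction a L) : Centre.IsL (-(1 / 2)) 0 a L where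
  norm := h.bound
  euler := fun s hs => h.euler s (by linarith)
  mero := fun x _ _ => (h.entire.analyticAt _).meromorphicAt
  le := by norm_num

theorem order (h : IsLFunction a L) : ∃ m : ℕ, analyticOrderAt L 0 = m ∧
    ∀ γ : ℝ, Real.pi / 2 < γ → (fun T : ℝ => diff a γ T - m) =O[atTop] fun T : ℝ => 1 / T := by
  have han : AnalyticAt ℂ L 0 := h.entire.analyticAt 0
  have h2 : Real.pi / 2 < Real.pi := by linarith [Real.pi_pos]
  obtain ⟨m₀, ρ₀, C₀, T₀, hm₀, -, -⟩ := h.isL.law h2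
  rw [Complex.ofReal_zero] at hm₀
  obtain ⟨m, hm⟩ : ∃ m : ℕ, analyticOrderAt L 0 = m := by
    cases hq : analyticOrderAt L 0 with
    | top =>
      rw [han.meromorphicOrderAt_eq, hq] at hm₀
      exact absurd hm₀.symm (WithTop.coe_ne_top)
    | coe k => exact ⟨k, rfl⟩
  have hmz : meromorphicOrderAt L 0 = ((m : ℤ) : WithTop ℤ) := by
    rw [han.meromorphicOrderAt_eq, hm]
    rfl
  refine ⟨m, hm, fun γ hγ => ?_⟩
  obtain ⟨m', ρ, C, T₀, hm', -, hlaw⟩ := h.isL.law hγ
  rw [Complex.ofReal_zero, hmz] at hm'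
  have hmm : m' = m := by exact_mod_cast hm'.symm
  subst hmm
  have he : (1 : ℝ) ≤ Real.exp 1 := Real.one_le_exp zero_le_one
  refine IsBigO.of_bound (2 * C) ?_
  filter_upwards [eventually_ge_atTop T₀, eventually_gt_atTop 0] with T hT hT0
  have hT1 : T ≤ Real.exp 1 * T := by nlinarith
  have hT2 : 0 < Real.exp 1 * T := lt_of_lt_of_le hT0 hT1
  have e1 := hlaw T hT
  have e2 := hlaw (Real.exp 1 * T) (hT.trans hT1)
  have hC : 0 ≤ C := by
    have := (norm_nonneg _).trans e1
    rw [div_nonneg_iff] at this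
    rcases this with h3 | h3
    · exact h3.1
    · linarith [h3.2]
  have e3 : C / (Real.exp 1 * T) ≤ C / T := div_le_div_of_nonneg_left hC hT0 hT1
  have e4 : Real.log (Real.exp 1 * T) = 1 + Real.log T := by
    rw [Real.log_mul (Real.exp_pos 1).ne' hT0.ne', Real.log_exp]
  have e5 : diff a γ T - m = (Centre.sum a 0 γ T - (ρ - m * (Real.log T - Lam γ))) -
      (Centre.sum a 0 γ (Real.exp 1 * T) - (ρ - m * (Real.log (Real.exp 1 * T) - Lam γ))) := by
    unfold diff
    rw [sum_eq, sum_eq, e4]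
    push_cast
    ring
  rw [e5, Real.norm_eq_abs, abs_of_pos (by positivity : 0 < 1 / T)]
  refine (norm_sub_le _ _).trans ?_
  have e6 : 2 * C * (1 / T) = C / T + C / T := by ring
  rw [e6]
  push_cast at e1 e2 ⊢
  exact add_le_add e1 (e2.trans e3)

theorem sign {m : ℕ} {ε₀ : ℂ} (h : IsLFunction a L) (hm : analyticOrderAt L 0 = m)
    (hs : IsSign L ε₀) : ε₀ = (-1) ^ m := by
  have han : AnalyticAt ℂ L 0 := h.entire.analyticAt 0
  obtain ⟨q, hq, hq0, hqg⟩ := (han.analyticOrderAt_eq_natCast).1 hm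
  obtain ⟨g, ε, hg, hg0, hε, rfl, hfe⟩ := hs
  have hneg : Tendsto (fun s : ℂ => -s) (𝓝[≠] 0) (𝓝[≠] 0) := by
    refine tendsto_nhdsWithin_iff.2 ⟨?_, ?_⟩
    · have h1 : Tendsto (fun s : ℂ => -s) (𝓝 0) (𝓝 0) := by
        simpa using (continuous_neg (G := ℂ)).tendsto 0
      exact h1.mono_left nhdsWithin_le_nhds
    · filter_upwards [self_mem_nhdsWithin] with s hs
      simpa using hs
  have hqg' : ∀ᶠ s in 𝓝[≠] (0 : ℂ), L s = s ^ m * q s := by
    filter_upwards [hqg.filter_mono nhdsWithin_le_nhds] with s hs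
    rw [hs, sub_zero, smul_eq_mul]
  have key : ∀ᶠ s in 𝓝[≠] (0 : ℂ), g s * q s = ε s * ((-1) ^ m * (g (-s) * q (-s))) := by
    filter_upwards [hfe.filter_mono nhdsWithin_le_nhds, hqg', hneg.eventually hqg',
      self_mem_nhdsWithin] with s h1 h2 h3 h4
    rw [h2, h3, neg_pow] at h1
    have h5 : s ^ m ≠ 0 := pow_ne_zero m h4
    apply mul_left_cancel₀ h5
    linear_combination h1
  have hl : Tendsto (fun s : ℂ => g s * q s) (𝓝[≠] 0) (𝓝 (g 0 * q 0)) :=
    (hg.continuousAt.tendsto.mul hq.continuousAt.tendsto).mono_left nhdsWithin_le_nhds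
  have hgq : Tendsto (fun s : ℂ => g s * q s) (𝓝 0) (𝓝 (g 0 * q 0)) :=
    hg.continuousAt.tendsto.mul hq.continuousAt.tendsto
  have hr : Tendsto (fun s : ℂ => ε s * ((-1) ^ m * (g (-s) * q (-s)))) (𝓝[≠] 0)
      (𝓝 (ε 0 * ((-1) ^ m * (g 0 * q 0)))) := by
    refine (hε.tendsto.mono_left nhdsWithin_le_nhds).mul (Tendsto.const_mul _ ?_)
    exact hl.comp hneg
  have hu := tendsto_nhds_unique (hl.congr' key) hr
  have hne : g 0 * q 0 ≠ 0 := mul_ne_zero hg0 hq0
  have h1 : (1 : ℂ) = ε 0 * (-1) ^ m := by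
    apply mul_right_cancel₀ hne
    linear_combination hu
  have h2 : ((-1 : ℂ) ^ m) * (-1) ^ m = 1 := by
    rw [← mul_pow]
    norm_num
  calc ε 0 = ε 0 * (((-1 : ℂ) ^ m) * (-1) ^ m) := by rw [h2, mul_one]
    _ = (ε 0 * (-1) ^ m) * (-1) ^ m := by ring
    _ = (-1) ^ m := by rw [← h1, one_mul]

theorem tendsto_of_isBigO {f : ℝ → ℂ} {c : ℂ}
    (h : (fun T : ℝ => f T - c) =O[atTop] fun T : ℝ => 1 / T) : Tendsto f atTop (𝓝 c) := by
  have h1 : Tendsto (fun T : ℝ => f T - c) atTop (𝓝 0) :=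
    h.trans_tendsto (tendsto_const_nhds.div_atTop tendsto_id)
  have h2 := h1.add_const c
  simpa using h2

theorem exp_law {f : ℝ → ℂ} {m : ℕ}
    (h : (fun T : ℝ => f T - m) =O[atTop] fun T : ℝ => 1 / T) :
    (fun T : ℝ => Complex.exp (Real.pi * Complex.I * f T) - (-1) ^ m) =O[atTop]
      fun T : ℝ => 1 / T := by
  have h0 : (fun T : ℝ => Real.pi * Complex.I * (f T - m)) =O[atTop] fun T : ℝ => 1 / T :=
    h.const_mul_left _
  have h1 : Tendsto (fun T : ℝ => Real.pi * Complex.I * (f T - m)) atTop (𝓝 0) :=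
    h0.trans_tendsto (tendsto_const_nhds.div_atTop tendsto_id)
  have h2 : (fun z : ℂ => Complex.exp z - 1) =O[𝓝 0] fun z => z := by
    have h3 := (Complex.hasDerivAt_exp 0).isBigO_sub
    simpa using h3
  have h4 := ((h2.comp_tendsto h1).trans h0).const_mul_left ((-1 : ℂ) ^ m)
  refine h4.congr_left fun T => ?_
  have h5 : Complex.exp (Real.pi * Complex.I * m) = (-1) ^ m := by
    rw [mul_comm, Complex.exp_nat_mul, Complex.exp_pi_mul_I]
  show (-1) ^ m * (Complex.exp (Real.pi * Complex.I * (f T - m)) - 1) = _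
  rw [mul_sub, mul_one, ← h5, ← Complex.exp_add]
  congr 2
  ring

end proof

/-- **Theorem.** Let `L` be the L-function of `π` with the parameters `a`.

* `S(T)` converges absolutely for `T > 0` (all real `γ`).
* `L` has a finite order `m` at `0`, and `S(T) - S(e T) = m + O(1 / T)` for `γ > π / 2`.
* If `ε₀` is the sign: `ε₀ = (-1)^m`, and `exp (π i (S(T) - S(e T))) = ε₀ + O(1 / T)`.
* `ε₀ = -1` iff `S(T) - S(e T)` tends to an odd integer along the filter `l ≤ atTop`; Q1 for a statement `H`. -/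
theorem result (a : HeightOneSpectrum (𝓞 F) → Fin n → ℂ) (L : ℂ → ℂ) (h : IsLFunction a L) :
    (∀ γ T : ℝ, 0 < T → Summable fun x => ‖term a γ T x‖) ∧
    ∃ m : ℕ, analyticOrderAt L 0 = m ∧ ∀ γ : ℝ, Real.pi / 2 < γ →
      (fun T : ℝ => diff a γ T - m) =O[atTop] (fun T : ℝ => 1 / T) ∧
      (∀ᶠ T in atTop, round (diff a γ T).re = m) ∧
      ∀ ε₀ : ℂ, IsSign L ε₀ → ε₀ = (-1) ^ m ∧
        (fun T : ℝ => Complex.exp (Real.pi * Complex.I * diff a γ T) - ε₀) =O[atTop]
          (fun T : ℝ => 1 / T) ∧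
        ∀ l : Filter ℝ, l.NeBot → l ≤ atTop →
          (ε₀ = -1 ↔ ∃ j : ℤ, Tendsto (diff a γ) l (𝓝 (2 * j + 1 : ℂ))) ∧
          ∀ H : Prop, ((ε₀ = -1 → H) ↔
            (H ∨ ∃ j : ℤ, Tendsto (diff a γ) l (𝓝 (2 * j : ℂ)))) := by
  refine ⟨fun γ T hT => (h.isL.summable γ hT).congr fun x => by rw [term_eq], ?_⟩
  obtain ⟨m, hm, hlaw⟩ := order h
  refine ⟨m, hm, fun γ hγ => ⟨hlaw γ hγ, ?_, fun ε₀ hs => ?_⟩⟩
  · have h1 : Tendsto (fun t => (diff a γ t).re) atTop (𝓝 (m : ℝ)) := by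
      have h2 := (Complex.continuous_re.tendsto (m : ℂ)).comp (tendsto_of_isBigO (hlaw γ hγ))
      rw [Complex.natCast_re] at h2
      exact h2
    filter_upwards [Metric.tendsto_nhds.1 h1 (1 / 2) (by norm_num)] with t ht
    rw [Real.dist_eq, abs_lt] at ht
    rw [round_eq, Int.floor_eq_iff]
    push_cast
    constructor <;> linarith [ht.1, ht.2]
  · have hsign := sign h hm hs
    refine ⟨hsign, ?_, fun l hl1 hl => ?_⟩
    · rw [hsign]
      exact exp_law (hlaw γ hγ)
    · have hlim : Tendsto (diff a γ) l (𝓝 (m : ℂ)) :=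
        (tendsto_of_isBigO (hlaw γ hγ)).mono_left hl
      have hodd : ε₀ = -1 ↔ Odd m := by
        rw [hsign]
        constructor
        · intro h1
          by_contra h2
          rw [Nat.not_odd_iff_even] at h2
          rw [h2.neg_one_pow] at h1
          norm_num at h1
        · intro h1
          exact h1.neg_one_pow
      have hodd' : ε₀ = -1 ↔ ∃ j : ℤ, Tendsto (diff a γ) l (𝓝 (2 * j + 1 : ℂ)) := by
        rw [hodd]
        constructor
        · rintro ⟨j, rfl⟩
          refine ⟨j, ?_⟩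
          push_cast at hlim
          exact_mod_cast hlim
        · rintro ⟨j, hj⟩
          have h1 := tendsto_nhds_unique hlim hj
          have h2 : (m : ℤ) = 2 * j + 1 := by exact_mod_cast h1
          have h3 : Odd (m : ℤ) := ⟨j, h2⟩
          exact_mod_cast h3
      refine ⟨hodd', fun H => ?_⟩
      have heven : (∃ j : ℤ, Tendsto (diff a γ) l (𝓝 (2 * j : ℂ))) ↔ Even m := by
        constructor
        · rintro ⟨j, hj⟩
          have h1 := tendsto_nhds_unique hlim hj
          have h2 : (m : ℤ) = 2 * j := by exact_mod_cast h1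
          have h3 : Even (m : ℤ) := ⟨j, by rw [h2]; ring⟩
          exact_mod_cast h3
        · rintro ⟨j, rfl⟩
          refine ⟨j, ?_⟩
          have h3 : ((j + j : ℕ) : ℂ) = 2 * ((j : ℤ) : ℂ) := by
            push_cast
            ring
          rw [← h3]
          exact hlim
      rw [heven, hodd, ← Nat.not_even_iff_odd]
      tauto

end Pool.Agent.Results.MP_b4b3cb_nt.SignByTraces
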